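import Pool.Agent.Mg.F9181f8.Gabeda0

open Pool.Agent.MP_9181f8_al

/-- For a finite `13`-group the following are equivalent: it embeds in a finite solvable group
that is uniformly semi-rational, respectively semi-rational, respectively quadratic
semi-rational, respectively quadratic rational; it has exponent dividing `13` and nilpotency
class at most two. -/
theorem Pool.Agent.Results.MP_9181f8_al.FourClasses.result (P : Type) [Group P] [Finite P]
    (hP : IsPGroup 13 P) :
    List.TFAE
      [∃ (G : Type) (_ : Group G), Finite G ∧ Group.IsSolvable G ∧ IsUSR G ∧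
          ∃ f : P →* G, Function.Injective f,
        ∃ (G : Type) (_ : Group G), Finite G ∧ Group.IsSolvable G ∧ IsSR G ∧
          ∃ f : P →* G, Function.Injective f,
        ∃ (G : Type) (_ : Group G), Finite G ∧ Group.IsSolvable G ∧ IsQSR G ∧
          ∃ f : P →* G, Function.Injective f,
        ∃ (G : Type) (_ : Group G), Finite G ∧ Group.IsSolvable G ∧ IsQR G ∧
          ∃ f : P →* G, Function.Injective f,
        (∀ g : P, g ^ 13 = 1) ∧ commutator P ≤ Subgroup.center P] := by
  have key : (∀ g : P, g ^ 13 = 1) ∧ commutator P ≤ Subgroup.center P →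
      ∃ (G : Type) (_ : Group G), Finite G ∧ Group.IsSolvable G ∧ IsUSR G ∧ IsQR G ∧
        ∃ f : P →* G, Function.Injective f := fun h =>
    embed (P := P) ⟨fun x y => h.2 (Subgroup.commutator_mem_commutator (Subgroup.mem_top x)
      (Subgroup.mem_top y)), h.1⟩
  tfae_have 1 → 2 := by
    rintro ⟨G, _, h1, h2, ⟨m, hm⟩, h3⟩
    exact ⟨G, inferInstance, h1, h2, fun x => ⟨m, hm x⟩, h3⟩
  tfae_have 2 → 5 := by
    rintro ⟨G, _, _, _, hG, f, hf⟩
    exact Pool.Agent.N9181.sylowSR P hP hG f hf
  tfae_have 3 → 4 := by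
    rintro ⟨G, _, h1, h2, hG, h3⟩
    exact ⟨G, inferInstance, h1, h2, hG.2, h3⟩
  tfae_have 4 → 5 := by
    rintro ⟨G, _, _, _, hG, f, hf⟩
    exact Pool.Agent.N9181.sylowQR P hP hG f hf
  tfae_have 5 → 1 := by
    intro h
    obtain ⟨G, _, h1, h2, h3, -, h5⟩ := key h
    exact ⟨G, inferInstance, h1, h2, h3, h5⟩
  tfae_have 5 → 3 := by
    intro h
    obtain ⟨G, _, h1, h2, ⟨m, hm⟩, h4, h5⟩ := key h
    exact ⟨G, inferInstance, h1, h2, ⟨fun x => ⟨m, hm x⟩, h4⟩, h5⟩
  tfae_finish
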